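import Pool.Agent.H39.HW.SStm

/-!
# Project HW, part sAVT: adjacent blocks in the top zone and in the bottom zone
-/

set_option autoImplicit false
open Classical Finset

namespace Pool.Agent.H71.HW

open Pool.Agent.H39.HW Pool.Agent.H39.HW.Sc

theorem st_low (x : Prm) {β : ℕ} (h : β ≤ x.b0) : x.st β = β * x.w := by
  simp [Prm.st, h]

theorem st_mid (x : Prm) {β : ℕ} (h0 : x.b0 ≤ β) (h1 : β ≤ x.b1) :
    x.st β = x.b0 * x.w + (β - x.b0) * x.v := by
  unfold Prm.st
  by_cases h : β ≤ x.b0
  · have : β = x.b0 := le_antisymm h h0
    subst this
    simp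
  · simp [h, h1]

theorem st_top (x : Prm) {β : ℕ} (h0 : x.b1 ≤ β) (h1 : β < x.B) :
    x.st β = x.b0 * x.w + x.M * x.v + (β - x.b1) * x.w := by
  unfold Prm.st
  have hb : x.b0 + x.M = x.b1 := by simp [Prm.b0, Prm.b1]
  by_cases h : β ≤ x.b0
  · have hM : x.M = 0 := by omega
    have hβ : β = x.b0 := by omega
    have h1' : x.b1 = x.b0 := by omega
    subst hβ
    simp [hM, h1']
  · by_cases h' : β ≤ x.b1
    · have : β = x.b1 := le_antisymm h' h0
      subst this
      have : x.b1 - x.b0 = x.M := by omega
      simp [h, this]
    · simp [h, h', h1]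

theorem st_end (x : Prm) (hK : 1 ≤ x.K) : x.st x.B = x.D + 2 * x.p := by
  unfold Prm.st
  have h1 : ¬ x.B ≤ x.b0 := by simp only [Prm.B, Prm.b0]; omega
  have h2 : ¬ x.B ≤ x.b1 := by simp only [Prm.B, Prm.b1]; omega
  simp [h1, h2]

theorem t_AVT : S_AVT := by
  intro x hx a ha β hβ hadj hav
  obtain ⟨hR1, hR2⟩ := Finset.mem_Icc.mp ha
  have hb0 : x.b0 = x.K + x.J := rfl
  have hb1 : x.b1 = x.b0 + x.M := rfl
  have hB : x.B = x.b1 + (x.K + x.J) := by simp only [Prm.B, Prm.b1]; omega
  have hKJ := hx.KJ
  have hKM := hx.KM
  have hJ := hx.J1
  have hpK := hx.pK'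
  have hp2 : 2 ≤ x.p := le_trans (by omega) hpK
  obtain ⟨had1, had2⟩ := hadj
  have hw := hx.w1
  constructor
  · intro hβ1
    rcases hav with hav | hav
    · -- row below the block
      by_cases hab : x.b1 ≤ a
      · exfalso
        have e1 : x.st (a + 1) = x.b0 * x.w + x.M * x.v + (a + 1 - x.b1) * x.w :=
          st_top x (by omega) (by omega)
        have e2 : x.st β = x.b0 * x.w + x.M * x.v + (β - x.b1) * x.w := st_top x hβ1 hβ
        have h3 : (β - x.b1) * x.w ≤ (a + 1 - x.b1) * x.w + (x.K - 1) * x.w := by
          rw [← Nat.add_mul]
          exact Nat.mul_le_mul_right _ (by omega)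
        omega
      · have hab' : a < x.b1 := by omega
        refine ⟨hab', ?_⟩
        have e1 : x.st (a + 1) = x.b0 * x.w + (a + 1 - x.b0) * x.v :=
          st_mid x (by omega) (by omega)
        have e2 : x.st β = x.b0 * x.w + x.M * x.v + (β - x.b1) * x.w := st_top x hβ1 hβ
        have h3 : (a + 1 - x.b0) * x.v + (x.b1 - 1 - a) * x.v = x.M * x.v := by
          rw [← Nat.add_mul]
          congr 1
          omega
        omega
    · exfalso
      by_cases hab : a ≤ β + 1
      · have e2 : x.st a ≤ x.st (β + 1) := by
          rcases Nat.lt_or_ge a x.b1 with h | h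
          · -- a < b1 ≤ β
            have e1 : x.st a ≤ x.st x.b1 := by
              rcases Nat.lt_or_ge a x.b0 with h' | h'
              · rw [st_low x h'.le, st_mid x (by omega) le_rfl]
                have := Nat.mul_le_mul_right x.w h'.le
                omega
              · rw [st_mid x h' h.le, st_mid x (by omega) le_rfl]
                have := Nat.mul_le_mul_right x.v (show a - x.b0 ≤ x.b1 - x.b0 by omega)
                omega
            have e3 : x.st x.b1 ≤ x.st (β + 1) := by
              rcases Nat.lt_or_ge (β + 1) x.B with h' | h'
              · rw [st_top x le_rfl (by omega), st_top x (by omega) h']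
                simp
              · have : β + 1 = x.B := by omega
                rw [this, st_top x le_rfl (by omega), st_end x (by omega)]
                have := hx.N1
                simp only [Nat.sub_self, Nat.zero_mul, Nat.add_zero]
                have h5 : x.b0 * x.w ≤ 2 * (x.K + x.J) * x.w :=
                  Nat.mul_le_mul_right _ (by omega)
                omega
            omega
          · rcases Nat.lt_or_ge (β + 1) x.B with h' | h'
            · rw [st_top x h (by omega), st_top x (by omega) h']
              have := Nat.mul_le_mul_right x.w (show a - x.b1 ≤ β + 1 - x.b1 by omega)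
              omega
            · have : β + 1 = x.B := by omega
              rw [this, st_top x h (by omega), st_end x (by omega)]
              have := hx.N1
              have h5 : x.b0 * x.w + (a - x.b1) * x.w ≤ 2 * (x.K + x.J) * x.w := by
                rw [← Nat.add_mul]
                exact Nat.mul_le_mul_right _ (by omega)
              omega
        omega
      · have e1 : x.st a = x.b0 * x.w + x.M * x.v + (a - x.b1) * x.w :=
          st_top x (by omega) (by omega)
        have e2 : x.st (β + 1) = x.b0 * x.w + x.M * x.v + (β + 1 - x.b1) * x.w :=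
          st_top x (by omega) (by omega)
        have h3 : (a - x.b1) * x.w ≤ (β + 1 - x.b1) * x.w + (x.K - 1) * x.w := by
          rw [← Nat.add_mul]
          exact Nat.mul_le_mul_right _ (by omega)
        omega
  · intro hβ0
    rcases hav with hav | hav
    · exfalso
      -- row below the block, block in the bottom zone
      have e2 : x.st β = β * x.w := st_low x hβ0.le
      have e1 : β * x.w ≤ x.st (a + 1) + (x.K - 1) * x.w := by
        rcases Nat.lt_or_ge (a + 1) x.b0 with h | h
        · rw [st_low x h.le, ← Nat.add_mul]
          exact Nat.mul_le_mul_right _ (by omega)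
        · have : x.b0 * x.w ≤ x.st (a + 1) := by
            rcases Nat.lt_or_ge (a + 1) x.b1 with h' | h'
            · rw [st_mid x h h'.le]
              omega
            · rw [st_top x h' (by omega)]
              omega
          have := Nat.mul_le_mul_right x.w hβ0.le
          omega
      omega
    · by_cases hab : a < x.b0
      · exfalso
        have e1 : x.st a = a * x.w := st_low x hab.le
        have e2 : x.st (β + 1) = (β + 1) * x.w := st_low x (by omega)
        have h3 : a * x.w ≤ (β + 1) * x.w + (x.K - 1) * x.w := by
          rw [← Nat.add_mul]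
          exact Nat.mul_le_mul_right _ (by omega)
        omega
      · have hab' : x.b0 ≤ a := by omega
        refine ⟨hab', ?_⟩
        have e1 : x.st a = x.b0 * x.w + (a - x.b0) * x.v := st_mid x hab' (by omega)
        have e2 : x.st (β + 1) = (β + 1) * x.w := st_low x (by omega)
        have h3 : (β + 1) * x.w + (x.b0 - 1 - β) * x.w = x.b0 * x.w := by
          rw [← Nat.add_mul]
          congr 1
          omega
        omega

end Pool.Agent.H71.HW
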