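import Pool.Agent.H71.HW.SAvt

/-!
# Project HW, part sCTO: columns in the top zone and in the bottom zone
-/

set_option autoImplicit false
open Classical Finset

namespace Pool.Agent.H71.HW

open Pool.Agent.H39.HW Pool.Agent.H39.HW.Sc

/-- counting the adjacent rows -/
theorem cnt_adj {K n v w p : ℕ} (hp : (K - 1) * w + 2 ≤ p) (T : Finset ℕ)
    (hT : ∀ i ∈ T, i + n + 1 ≤ K ∧ p ≤ i * v + n * w + 1) (hne : T.Nonempty) :
    n < K ∧ T.card * v + (K - n) * w ≤ (K - n) * v + w := by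
  obtain ⟨i0, hi0, hmin⟩ := Finset.exists_min_image T (fun i => i) hne
  obtain ⟨h1, h2⟩ := hT i0 hi0
  have hsub : T ⊆ Finset.Ico i0 (K - n) := by
    intro i hi
    have h3 := hmin i hi
    have h4 := (hT i hi).1
    exact Finset.mem_Ico.mpr ⟨h3, by omega⟩
  have hc : T.card ≤ K - n - i0 := by
    have := Finset.card_le_card hsub
    rwa [Nat.card_Ico] at this
  refine ⟨by omega, ?_⟩
  have h5 : T.card * v + i0 * v ≤ (K - n) * v := by
    rw [← Nat.add_mul]
    exact Nat.mul_le_mul_right _ (by omega)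
  have h6 : (K - n) * w + n * w = (K - 1) * w + w := by
    rw [← Nat.add_mul]
    have : (K - 1) * w + w = (K - 1 + 1) * w := by ring
    rw [this]
    congr 1
    omega
  omega

/-- the numerical inequality -/
theorem num_cto {ε η θ μ c a1 a2 l K M J n Tm Ta : ℝ} (hη0 : 0 < η) (hη : η ≤ 1 / 10 ^ 5)
    (hε : ε ≤ 1 / 10) (hθ0 : 0 < θ) (hθ : θ ≤ η) (hμ : 0 < μ)
    (hc : c ≤ 1 / 2 - ε) (hε0 : 0 < ε)
    (s1 : |a1 - μ - 2 / 5 * θ * μ| ≤ η * θ * μ) (s2 : |a2 - μ - θ * μ| ≤ η * θ * μ)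
    (hl : l ≤ a1 + η * θ * μ) (k1 : |K * μ - c| ≤ η) (m1 : |M * μ - 1| ≤ η) (j1 : J * μ ≤ η)
    (hn : 0 ≤ n) (hnK : n ≤ K + J) (hTm : 0 ≤ Tm) (hTm1 : Tm + K ≤ M + J + n)
    (hTa : 0 ≤ Ta) (hTa1 : Ta = 0 ∨ (n ≤ K ∧ Ta * a2 + (K - n) * a1 ≤ (K - n) * a2 + a1))
    (hμη : μ ≤ η * θ) :
    Tm * (l - μ) + Ta * l ≤ (1 / 2 - ε / 10 + 100 * η) * θ := by
  obtain ⟨s1a, s1b⟩ := abs_le.mp s1
  obtain ⟨s2a, s2b⟩ := abs_le.mp s2
  obtain ⟨k1a, k1b⟩ := abs_le.mp k1
  obtain ⟨m1a, m1b⟩ := abs_le.mp m1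
  have hθμ : 0 < θ * μ := by positivity
  have hη1 : η * (θ * μ) ≤ 1 / 10 ^ 5 * (θ * μ) := mul_le_mul_of_nonneg_right hη hθμ.le
  -- the middle rows
  have hx : l - μ ≤ (2 / 5 + 2 * η) * (θ * μ) := by nlinarith
  have hA : Tm * (l - μ) ≤ (M + J + n - K) * μ * ((2 / 5 + 2 * η) * θ) := by
    have h1 : Tm * (l - μ) ≤ Tm * ((2 / 5 + 2 * η) * (θ * μ)) :=
      mul_le_mul_of_nonneg_left hx hTm
    have h2 : Tm * ((2 / 5 + 2 * η) * (θ * μ)) ≤
        (M + J + n - K) * ((2 / 5 + 2 * η) * (θ * μ)) :=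
      mul_le_mul_of_nonneg_right (by linarith) (by positivity)
    calc Tm * (l - μ) ≤ _ := h1
      _ ≤ _ := h2
      _ = _ := by ring
  have hA2 : (M + J + n - K) * μ ≤ 1 - c + n * μ + 3 * η := by nlinarith
  have hA3 : (M + J + n - K) * μ * ((2 / 5 + 2 * η) * θ) ≤
      (1 - c + n * μ + 3 * η) * ((2 / 5 + 2 * η) * θ) :=
    mul_le_mul_of_nonneg_right hA2 (by positivity)
  have hs0 : 0 ≤ n * μ := by positivity
  have hs1 : n * μ ≤ c + 2 * η := by nlinarith
  rcases hTa1 with h | ⟨hnK', h⟩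
  · rw [h]
    have h3 : (1 - c + n * μ + 3 * η) * ((2 / 5 + 2 * η) * θ) ≤
        (1 + 5 * η) * ((2 / 5 + 2 * η) * θ) :=
      mul_le_mul_of_nonneg_right (by linarith) (by positivity)
    have h4 : (1 + 5 * η) * (2 / 5 + 2 * η) ≤ 1 / 2 - ε / 10 + 100 * η := by nlinarith
    have h5 : (1 + 5 * η) * ((2 / 5 + 2 * η) * θ) ≤ (1 / 2 - ε / 10 + 100 * η) * θ := by
      have := mul_le_mul_of_nonneg_right h4 hθ0.le
      linarith
    linarith
  · have hla : l ≤ a2 := by nlinarith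
    have hB1 : Ta * l ≤ Ta * a2 := mul_le_mul_of_nonneg_left hla hTa
    have hd : a2 - a1 ≤ (3 / 5 + 2 * η) * (θ * μ) := by nlinarith
    have hB2 : Ta * a2 ≤ (K - n) * (a2 - a1) + a1 := by nlinarith
    have hB3 : (K - n) * (a2 - a1) ≤ (K - n) * ((3 / 5 + 2 * η) * (θ * μ)) :=
      mul_le_mul_of_nonneg_left hd (by linarith)
    have hB4 : (K - n) * ((3 / 5 + 2 * η) * (θ * μ)) = (K * μ - n * μ) * ((3 / 5 + 2 * η) * θ) := by
      ring
    have hB5 : (K * μ - n * μ) * ((3 / 5 + 2 * η) * θ) ≤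
        (c + η - n * μ) * ((3 / 5 + 2 * η) * θ) :=
      mul_le_mul_of_nonneg_right (by linarith) (by positivity)
    have ha1 : a1 ≤ 2 * μ := by nlinarith
    have ha1' : a1 ≤ 2 * η * θ := by linarith
    have hs2 : n * μ ≤ c + η := by nlinarith
    have h6 : (1 - c + n * μ + 3 * η) * (2 / 5 + 2 * η) +
        (c + η - n * μ) * (3 / 5 + 2 * η) + 2 * η ≤ 1 / 2 - ε / 10 + 100 * η := by
      nlinarith
    have h7 := mul_le_mul_of_nonneg_right h6 hθ0.le
    nlinarith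

/-- both zones -/
theorem cto_aux (x : Prm) (hx : Par x) (hCLD : S_CLD) {β n : ℕ}
    (hln : (ln x.st β : ℝ) ≤ x.w + x.M) (hn : n < x.K + x.J)
    (hm : (x.R.filter fun a => ¬ x.adj a β).card + x.K ≤ x.M + x.J + n)
    (f : ℕ → ℕ)
    (hf1 : ∀ a ∈ x.R, β ∈ x.cls a → x.adj a β → f a + n + 1 ≤ x.K ∧
      x.p ≤ f a * x.v + n * x.w + 1)
    (hf2 : ∀ a ∈ x.R, ∀ b ∈ x.R, β ∈ x.cls a → β ∈ x.cls b → x.adj a β → x.adj b β →
      f a = f b → a = b) :
    ∑ a ∈ x.R.filter (fun a => β ∈ x.cls a), x.dem a β ≤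
      (1 / 2 - x.ε / 10 + 100 * x.η) * x.θ := by
  set T := x.R.filter (fun a => β ∈ x.cls a) with hT
  have hsplit := Finset.sum_filter_add_sum_filter_not T (fun a => ¬ x.adj a β)
    (fun a => x.dem a β)
  have h1 : ∑ a ∈ T.filter (fun a => ¬ x.adj a β), x.dem a β =
      ((T.filter fun a => ¬ x.adj a β).card : ℝ) * ((ln x.st β : ℝ) / x.D - x.μ) := by
    rw [Finset.sum_congr rfl (fun a ha => ?_), Finset.sum_const, nsmul_eq_mul]
    obtain ⟨haT, hna⟩ := Finset.mem_filter.mp ha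
    obtain ⟨haR, hac⟩ := Finset.mem_filter.mp haT
    exact (hCLD x hx a haR).2.2.2.1 β hac hna
  have h2 : ∑ a ∈ T.filter (fun a => ¬ ¬ x.adj a β), x.dem a β =
      ((T.filter fun a => ¬ ¬ x.adj a β).card : ℝ) * ((ln x.st β : ℝ) / x.D) := by
    rw [Finset.sum_congr rfl (fun a ha => ?_), Finset.sum_const, nsmul_eq_mul]
    obtain ⟨haT, hna⟩ := Finset.mem_filter.mp ha
    obtain ⟨haR, hac⟩ := Finset.mem_filter.mp haT
    exact (hCLD x hx a haR).2.2.1 β hac (not_not.mp hna)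
  rw [← hsplit, h1, h2]
  have hD : (1 : ℝ) ≤ x.D := by exact_mod_cast hx.D1
  have hD0 : (0 : ℝ) < x.D := by linarith
  have hη : x.η ≤ 1 / 10 ^ 5 := by
    have := hx.n1
    have := hx.e1
    linarith
  have hMD : (x.M : ℝ) / x.D ≤ x.η * x.θ * x.μ := by
    rw [div_le_iff₀ hD0]
    have h := hx.D2
    have hMB : (x.M : ℝ) ≤ x.B := by
      have : x.M ≤ x.B := by simp only [Prm.B]; omega
      exact_mod_cast this
    have : (0 : ℝ) ≤ x.B := by positivity
    linarith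
  have hl : (ln x.st β : ℝ) / x.D ≤ (x.w : ℝ) / x.D + x.η * x.θ * x.μ := by
    have : (ln x.st β : ℝ) / x.D ≤ ((x.w : ℝ) + x.M) / x.D :=
      div_le_div_of_nonneg_right hln hD0.le
    rw [add_div] at this
    linarith
  have hμη : x.μ ≤ x.η * x.θ := by
    have h := hx.e3
    have hμ := hx.m0
    have : (0 : ℝ) ≤ x.e := by positivity
    nlinarith
  have hsubm : T.filter (fun a => ¬ x.adj a β) ⊆ x.R.filter fun a => ¬ x.adj a β := by
    intro a ha
    obtain ⟨haT, hna⟩ := Finset.mem_filter.mp ha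
    exact Finset.mem_filter.mpr ⟨(Finset.mem_filter.mp haT).1, hna⟩
  have hTm := Finset.card_le_card hsubm
  refine num_cto (K := x.K) (M := x.M) (J := x.J) (n := n) (a2 := (x.v : ℝ) / x.D) hx.n0 hη
    hx.e1 hx.t0 hx.th hx.m0 hx.c2 hx.e0 hx.s1 hx.s2 hl hx.k1 hx.m1 hx.j1 (by positivity)
    (by exact_mod_cast hn.le) (by positivity) ?_ (by positivity) ?_ hμη
  · have : (T.filter fun a => ¬ x.adj a β).card + x.K ≤ x.M + x.J + n := by omega
    exact_mod_cast this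
  · rcases Finset.eq_empty_or_nonempty (T.filter fun a => ¬ ¬ x.adj a β) with h | h
    · left
      rw [h]
      simp
    · right
      have hprop : ∀ a ∈ T.filter (fun a => ¬ ¬ x.adj a β),
          a ∈ x.R ∧ β ∈ x.cls a ∧ x.adj a β := by
        intro a ha
        obtain ⟨haT, hna⟩ := Finset.mem_filter.mp ha
        obtain ⟨haR, hac⟩ := Finset.mem_filter.mp haT
        exact ⟨haR, hac, not_not.mp hna⟩
      have hinj : Set.InjOn f (T.filter fun a => ¬ ¬ x.adj a β) := by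
        intro a ha b hb hab
        obtain ⟨q1, q2, q3⟩ := hprop a ha
        obtain ⟨r1, r2, r3⟩ := hprop b hb
        exact hf2 a q1 b r1 q2 r2 q3 r3 hab
      have hcard := Finset.card_image_of_injOn hinj
      obtain ⟨g1, g2⟩ := cnt_adj (n := n) (v := x.v) hx.pK'
        ((T.filter fun a => ¬ ¬ x.adj a β).image f) (by
          intro i hi
          obtain ⟨a, ha, rfl⟩ := Finset.mem_image.mp hi
          obtain ⟨q1, q2, q3⟩ := hprop a ha
          exact hf1 a q1 q2 q3) (h.image f)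
      rw [hcard] at g2
      have hnK : (n : ℝ) ≤ x.K := by exact_mod_cast g1.le
      refine ⟨hnK, ?_⟩
      have g3 : (((T.filter fun a => ¬ ¬ x.adj a β).card : ℝ)) * x.v + (x.K - n) * x.w ≤
          (x.K - n) * x.v + x.w := by
        have e : ((x.K - n : ℕ) : ℝ) = (x.K : ℝ) - n := by
          rw [Nat.cast_sub g1.le]
        rw [← e]
        exact_mod_cast g2
      have g4 := div_le_div_of_nonneg_right g3 hD0.le
      calc _ = ((((T.filter fun a => ¬ ¬ x.adj a β).card : ℝ)) * x.v + (x.K - n) * x.w) / x.D := by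
            ring
        _ ≤ _ := g4
        _ = _ := by ring

theorem t_CTO (hBLK : S_BLK) (hCLD : S_CLD) : S_CTO := by
  intro x hx β hβ hmid
  obtain ⟨_, _, _, _, hl1, _, hl3, hl4⟩ := hBLK x hx
  have hb0 : x.b0 = x.K + x.J := rfl
  have hb1 : x.b1 = x.b0 + x.M := rfl
  have hB : x.B = x.b1 + (x.K + x.J) := by simp only [Prm.B, Prm.b1]; omega
  have hKJ := hx.KJ
  have hKM := hx.KM
  have hJ := hx.J1
  have hmem : ∀ a ∈ x.R, x.K + 1 ≤ a ∧ a ≤ x.b1 + x.J - 1 := fun a ha => Finset.mem_Icc.mp ha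
  have hav := fun (a : ℕ) (ha : a ∈ x.R) (hc : β ∈ x.cls a) (hadj : x.adj a β) =>
    t_AVT x hx a ha β hβ hadj (((hCLD x hx a ha).1 β).mp hc).2.1
  have hmid' : β < x.b0 ∨ x.b1 ≤ β := by
    by_contra hc
    exact hmid (Finset.mem_Ico.mpr ⟨by omega, by omega⟩)
  rcases hmid' with h | h
  · refine cto_aux x hx hCLD (n := x.b0 - 1 - β) ?_ (by omega) ?_ (fun a => a - x.b0) ?_ ?_
    · rw [hl1 β h]
      have : (0 : ℝ) ≤ x.M := by positivity
      linarith
    · have hsub : x.R.filter (fun a => ¬ x.adj a β) ⊆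
          Finset.Icc (β + x.K + 1) (x.b1 + x.J - 1) := by
        intro a ha
        obtain ⟨haR, hna⟩ := Finset.mem_filter.mp ha
        obtain ⟨h1, h2⟩ := hmem a haR
        refine Finset.mem_Icc.mpr ⟨?_, h2⟩
        by_contra hc
        exact hna ⟨by omega, by omega⟩
      have := Finset.card_le_card hsub
      rw [Nat.card_Icc] at this
      omega
    · intro a ha hc hadj
      obtain ⟨h1, h2⟩ := hadj
      obtain ⟨h3, h4⟩ := (hav a ha hc ⟨h1, h2⟩).2 h
      exact ⟨by omega, h4⟩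
    · intro a ha b hb hca hcb haa hab hfab
      obtain ⟨h3, _⟩ := (hav a ha hca haa).2 h
      obtain ⟨h4, _⟩ := (hav b hb hcb hab).2 h
      omega
  · refine cto_aux x hx hCLD (n := β - x.b1) ?_ (by omega) ?_ (fun a => x.b1 - 1 - a) ?_ ?_
    · by_cases hlast : β + 1 < x.B
      · rw [hl3 β h hlast]
        have : (0 : ℝ) ≤ x.M := by positivity
        linarith
      · exact_mod_cast (hl4 β (by omega)).2
    · have hsub : x.R.filter (fun a => ¬ x.adj a β) ⊆
          Finset.Icc (x.K + 1) (β - x.K - 1) := by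
        intro a ha
        obtain ⟨haR, hna⟩ := Finset.mem_filter.mp ha
        obtain ⟨h1, h2⟩ := hmem a haR
        refine Finset.mem_Icc.mpr ⟨h1, ?_⟩
        by_contra hc
        exact hna ⟨by omega, by omega⟩
      have := Finset.card_le_card hsub
      rw [Nat.card_Icc] at this
      omega
    · intro a ha hc hadj
      obtain ⟨h1, h2⟩ := hadj
      obtain ⟨h3, h4⟩ := (hav a ha hc ⟨h1, h2⟩).1 h
      exact ⟨by omega, h4⟩
    · intro a ha b hb hca hcb haa hab hfab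
      obtain ⟨h3, _⟩ := (hav a ha hca haa).1 h
      obtain ⟨h4, _⟩ := (hav b hb hcb hab).1 h
      omega

end Pool.Agent.H71.HW
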