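import Pool.Agent.H39.HW.SStm

/-!
# Project HW, part sTOT: the total demand of a row
-/

set_option autoImplicit false
open Classical Finset

namespace Pool.Agent.H71.HW

open Pool.Agent.H39.HW Pool.Agent.H39.HW.Sc

/-- telescoping -/
theorem sum_ln_range {st : ℕ → ℕ} (hm : Monotone st) (h0 : st 0 = 0) (n : ℕ) :
    ∑ β ∈ range n, ln st β = st n := by
  have h := Finset.sum_range_tsub hm n
  rw [h0, Nat.sub_zero] at h
  exact h

/-- the numbers of labels at distance at least `p` from the block `a` -/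
theorem sum_av {st : ℕ → ℕ} (hm : Monotone st) (h0 : st 0 = 0) {p a B K : ℕ} (hp : 2 ≤ p)
    (hKB : ∀ i, i + K ≤ B → st i + p ≤ st (i + K)) (ha0 : K ≤ a) (ha1 : a + K + 1 ≤ B) :
    ∃ i < B, ∃ j < B, (∑ β ∈ (range B).filter (fun β => Av st p a β), ln st β) + ln st a
      ≤ st B - 2 * p + 2 ∧
      st B + 3 ≤ (∑ β ∈ (range B).filter (fun β => Av st p a β), ln st β) + ln st a
        + ln st i + ln st j + 2 * p := by
  have hsplit : (range B).filter (fun β => Av st p a β) =
      (range B).filter (fun β => st (β + 1) + p ≤ st a + 1) ∪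
      (range B).filter (fun β => st (a + 1) + p ≤ st β + 1) := by
    ext β
    simp only [Finset.mem_filter, Finset.mem_union]
    unfold Av
    tauto
  have hlast : st (a + 1) ≥ st a := hm (show a ≤ a + 1 by omega)
  have hdis : Disjoint ((range B).filter (fun β => st (β + 1) + p ≤ st a + 1))
      ((range B).filter (fun β => st (a + 1) + p ≤ st β + 1)) := by
    rw [Finset.disjoint_left]
    intro β h1 h2
    have h1' := (Finset.mem_filter.mp h1).2
    have h2' := (Finset.mem_filter.mp h2).2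
    have := hm (show β ≤ β + 1 by omega)
    omega
  -- below
  have hex1 : ∃ i, ¬ (st (i + 1) + p ≤ st a + 1) := ⟨a, by omega⟩
  let i := Nat.find hex1
  have hi : ¬ (st (i + 1) + p ≤ st a + 1) := Nat.find_spec hex1
  have hia : i ≤ a := Nat.find_min' hex1 (by omega)
  have hS1 : (range B).filter (fun β => st (β + 1) + p ≤ st a + 1) = range i := by
    ext β
    simp only [Finset.mem_filter, Finset.mem_range]
    constructor
    · rintro ⟨_, h⟩
      by_contra hc
      have := hm (show i + 1 ≤ β + 1 by omega)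
      omega
    · intro h
      refine ⟨by omega, ?_⟩
      have := Nat.find_min hex1 h
      omega
  have hi2 : st i + p ≤ st a + 1 := by
    rcases Nat.eq_zero_or_pos i with h | h
    · rw [h, h0]
      have h1 := hKB 0 (by omega)
      simp only [h0, Nat.zero_add] at h1
      have h2 := hm ha0
      omega
    · have := Nat.find_min hex1 (show i - 1 < i by omega)
      have e : i - 1 + 1 = i := by omega
      rw [e] at this
      omega
  -- above
  have hexB : st (a + 1) + p ≤ st B + 1 := by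
    have h1 := hKB (a + 1) (by omega)
    have h2 := hm (show a + 1 + K ≤ B by omega)
    omega
  have hex2 : ∃ j, st (a + 1) + p ≤ st j + 1 := ⟨B, hexB⟩
  let j := Nat.find hex2
  have hj : st (a + 1) + p ≤ st j + 1 := Nat.find_spec hex2
  have hjB : j ≤ B := Nat.find_min' hex2 hexB
  have hS2 : (range B).filter (fun β => st (a + 1) + p ≤ st β + 1) = Finset.Ico j B := by
    ext β
    simp only [Finset.mem_filter, Finset.mem_range, Finset.mem_Ico]
    constructor
    · rintro ⟨h1, h⟩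
      exact ⟨Nat.find_min' hex2 h, h1⟩
    · rintro ⟨h1, h2⟩
      refine ⟨h2, ?_⟩
      have := hm h1
      omega
  have hj0 : 1 ≤ j := by
    by_contra hc
    have : j = 0 := by omega
    rw [this, h0] at hj
    omega
  have hj2 : st (j - 1) + 1 < st (a + 1) + p := by
    have := Nat.find_min hex2 (show j - 1 < j by omega)
    omega
  have hsumj : st j + ∑ β ∈ Finset.Ico j B, ln st β = st B := by
    have h1 := Finset.sum_range_add_sum_Ico (fun β => ln st β) hjB
    rw [sum_ln_range hm h0, sum_ln_range hm h0] at h1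
    exact h1
  refine ⟨i, by omega, j - 1, by omega, ?_, ?_⟩
  · rw [hsplit, Finset.sum_union hdis, hS1, hS2, sum_ln_range hm h0]
    have : ln st a = st (a + 1) - st a := rfl
    omega
  · rw [hsplit, Finset.sum_union hdis, hS1, hS2, sum_ln_range hm h0]
    have e1 : ln st a = st (a + 1) - st a := rfl
    have e2 : ln st i = st (i + 1) - st i := rfl
    have e3 : ln st (j - 1) = st j - st (j - 1) := by
      unfold ln
      have e : j - 1 + 1 = j := by omega
      rw [e]
    have := hm (show i ≤ i + 1 by omega)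
    have := hm (show j - 1 ≤ j by omega)
    omega

/-- the length of a block is at most `2 μ D` -/
theorem ln_le (hB : S_BLK) (x : Prm) (hx : Par x) {β : ℕ} (hβ : β < x.B) :
    (ln x.st β : ℝ) ≤ 2 * x.μ * x.D := by
  obtain ⟨_, _, _, _, h1, h2, h3, h4⟩ := hB x hx
  have hD : (1 : ℝ) ≤ x.D := by exact_mod_cast hx.D1
  have hD0 : (0 : ℝ) < x.D := by linarith
  have hη : x.η ≤ 1 / 10 ^ 5 := by
    have := hx.n1
    have := hx.e1
    linarith
  have hη0 := hx.n0
  have hθ := hx.th
  have hθ0 := hx.t0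
  have hμ := hx.m0
  have hηθ : x.η * x.θ ≤ 1 / 10 ^ 5 := by nlinarith
  have hηθ0 : 0 < x.η * x.θ := by positivity
  have hθ1 : x.θ ≤ 1 / 10 ^ 5 := by linarith
  have hw : (x.w : ℝ) ≤ (1 + 1 / 10 ^ 4) * x.μ * x.D := by
    have h := (abs_le.mp hx.s1).2
    have h' : (x.w : ℝ) / x.D ≤ (1 + 1 / 10 ^ 4) * x.μ := by nlinarith
    rw [div_le_iff₀ hD0] at h'
    exact h'
  have hv : (x.v : ℝ) ≤ (1 + 1 / 10 ^ 4) * x.μ * x.D := by
    have h := (abs_le.mp hx.s2).2
    have h' : (x.v : ℝ) / x.D ≤ (1 + 1 / 10 ^ 4) * x.μ := by nlinarith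
    rw [div_le_iff₀ hD0] at h'
    exact h'
  have hμD : 0 < x.μ * x.D := by positivity
  have hMB : (x.M : ℝ) ≤ x.B := by
    have : x.M ≤ x.B := by simp only [Prm.B]; omega
    exact_mod_cast this
  have hM : (x.M : ℝ) ≤ 1 / 10 ^ 4 * (x.μ * x.D) := by
    have h := hx.D2
    have h5 : x.η * x.θ * x.μ * x.D ≤ 1 / 10 ^ 5 * (x.μ * x.D) := by nlinarith
    have : (0 : ℝ) ≤ x.B := by positivity
    nlinarith
  by_cases c1 : β < x.b0
  · rw [h1 β c1]
    nlinarith
  · by_cases c2 : β < x.b1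
    · rw [h2 β (by omega) c2]
      nlinarith
    · by_cases c3 : β + 1 < x.B
      · rw [h3 β (by omega) c3]
        nlinarith
      · have := (h4 β (by omega)).2
        have : (ln x.st β : ℝ) ≤ x.w + x.M := by exact_mod_cast this
        nlinarith

theorem t_TOT (hBLK : S_BLK) (hCLD : S_CLD) (hMMD : S_MMD) (hWIN : S_WIN) : S_TOT := by
  intro x hx a ha
  obtain ⟨hst0, hstB, hstm, hKB, _, hlm, _, _⟩ := hBLK x hx
  have hmono : Monotone x.st := monotone_nat_of_le_succ hstm
  obtain ⟨hRc, hMM⟩ := hMMD x hx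
  obtain ⟨_, hmmc, hsB, hsadj⟩ := hMM a ha
  obtain ⟨hcls, hmmsub, _, _, _⟩ := hCLD x hx a ha
  obtain ⟨hwin1, _, hSc, _⟩ := hWIN x hx a ha
  obtain ⟨hR1, hR2⟩ := Finset.mem_Icc.mp ha
  have hKM := hx.KM
  have hJ := hx.J1
  have hKJ := hx.KJ
  have hp2 : 2 ≤ x.p := le_trans (by omega) hx.pK'
  have hB : x.B = x.b1 + (x.K + x.J) := by simp only [Prm.B, Prm.b1]; omega
  obtain ⟨i, hi, j, hj, hup, hlow⟩ :=
    sum_av hmono hst0 hp2 hKB (show x.K ≤ a by omega) (show a + x.K + 1 ≤ x.B by omega)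
  set A := (range x.B).filter (fun β => Av x.st x.p a β) with hA
  set E := A.erase (sm x.B a a) with hE
  set U := (range (2 * x.h)).biUnion fun P => x.S P a with hU
  have hclsE : x.cls a = E \ U := rfl
  have hUE : U ⊆ E := by
    intro β hβ
    obtain ⟨P, _, hβP⟩ := Finset.mem_biUnion.mp hβ
    obtain ⟨hβm, hβw, _⟩ := Finset.mem_filter.mp hβP
    obtain ⟨hav, hadj, _⟩ := hwin1 β hβm hβw
    refine Finset.mem_erase.mpr ⟨?_, Finset.mem_filter.mpr ⟨?_, hav⟩⟩
    · intro h
      exact hsadj (h ▸ hadj)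
    · have := (Finset.mem_Ico.mp hβm).2
      exact Finset.mem_range.mpr (by omega)
  have hUsum : ∑ β ∈ U, ln x.st β = 2 * x.h * (x.q * x.v) := by
    rw [hU, Finset.sum_biUnion]
    · have : ∀ P ∈ range (2 * x.h), ∑ β ∈ x.S P a, ln x.st β = x.q * x.v := by
        intro P hP
        rw [Finset.sum_congr rfl (fun β hβ => ?_), Finset.sum_const,
          hSc P (Finset.mem_range.mp hP), smul_eq_mul]
        obtain ⟨hβm, _⟩ := Finset.mem_filter.mp hβ
        obtain ⟨h5, h6⟩ := Finset.mem_Ico.mp hβm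
        exact hlm β h5 h6
      rw [Finset.sum_congr rfl this, Finset.sum_const, Finset.card_range, smul_eq_mul]
    · intro P _ Q _ hPQ
      change Disjoint (x.S P a) (x.S Q a)
      rw [Finset.disjoint_left]
      intro β h5 h6
      have h5' := (Finset.mem_filter.mp h5).2.2
      have h6' := (Finset.mem_filter.mp h6).2.2
      apply hPQ
      omega
  have hclssum : ∑ β ∈ x.cls a, ln x.st β + 2 * x.h * (x.q * x.v) = ∑ β ∈ E, ln x.st β := by
    rw [hclsE, ← hUsum]
    exact Finset.sum_sdiff hUE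
  have hE1 : ∑ β ∈ E, ln x.st β ≤ ∑ β ∈ A, ln x.st β :=
    Finset.sum_le_sum_of_subset (Finset.erase_subset _ _)
  have hE2 : ∑ β ∈ A, ln x.st β ≤ ∑ β ∈ E, ln x.st β + ln x.st (sm x.B a a) := by
    by_cases h : sm x.B a a ∈ A
    · exact (Finset.sum_erase_add A (fun β => ln x.st β) h).ge
    · rw [hE, Finset.erase_eq_of_notMem h]
      omega
  -- the demand
  have hDt : x.Dt a = (∑ β ∈ x.cls a, (ln x.st β : ℝ)) / x.D - ((x.mm a).card : ℝ) * x.μ := by
    unfold Prm.Dt
    have : ∀ β ∈ x.cls a, x.dem a β =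
        (ln x.st β : ℝ) / x.D - (if β ∈ x.mm a then x.μ else 0) := fun β _ => rfl
    rw [Finset.sum_congr rfl this, Finset.sum_sub_distrib, Finset.sum_div, Finset.sum_ite_mem,
      Finset.inter_eq_right.mpr hmmsub, Finset.sum_const, nsmul_eq_mul]
  have hD : (1 : ℝ) ≤ x.D := by exact_mod_cast hx.D1
  have hD0 : (0 : ℝ) < x.D := by linarith
  have hμ := hx.m0
  have hRr : (x.R.card : ℝ) = x.M + 2 * x.J - 1 := by
    rw [hRc, Nat.cast_sub (by omega)]
    push_cast
    ring
  have hmmr : ((x.mm a).card : ℝ) = x.R.card - 1 := by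
    have : ((x.mm a).card : ℝ) + 1 = x.R.card := by exact_mod_cast hmmc
    linarith
  have hθ : x.θ = 1 - (x.R.card : ℝ) * x.μ := by
    rw [hRr]
    rfl
  have hl := fun {β : ℕ} (hβ : β < x.B) => ln_le hBLK x hx hβ
  have l1 := hl hi
  have l2 := hl hj
  have l3 := hl (show a < x.B by omega)
  have l4 := hl hsB
  have h2D : (2 : ℝ) ≤ x.μ * x.D := by
    have h := hx.D2
    have hη : x.η ≤ 1 := by
      have := hx.n1
      have := hx.e1
      have := hx.n0
      linarith
    have hηθ : x.η * x.θ ≤ 1 := by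
      have := hx.th
      have := hx.t0
      have := hx.n0
      nlinarith
    have h5 : x.η * x.θ * x.μ * x.D ≤ 1 * (x.μ * x.D) := by
      have : 0 < x.μ * x.D := by positivity
      nlinarith
    have : (0 : ℝ) ≤ x.B := by positivity
    linarith
  have hup' : (∑ β ∈ A, (ln x.st β : ℝ)) + ln x.st a ≤ x.D + 2 := by
    have h5 : (∑ β ∈ A, ln x.st β) + ln x.st a ≤ x.D + 2 := by omega
    exact_mod_cast h5
  have hlow' : (x.D : ℝ) + 3 ≤ (∑ β ∈ A, (ln x.st β : ℝ)) + ln x.st a + ln x.st i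
      + ln x.st j := by
    have h5 : x.D + 3 ≤ (∑ β ∈ A, ln x.st β) + ln x.st a + ln x.st i + ln x.st j := by omega
    exact_mod_cast h5
  have hE1' : ∑ β ∈ E, (ln x.st β : ℝ) ≤ ∑ β ∈ A, (ln x.st β : ℝ) := by exact_mod_cast hE1
  have hE2' : ∑ β ∈ A, (ln x.st β : ℝ) ≤ ∑ β ∈ E, (ln x.st β : ℝ) + ln x.st (sm x.B a a) := by
    exact_mod_cast hE2
  have hc' : ∑ β ∈ x.cls a, (ln x.st β : ℝ) + 2 * x.h * (x.q * x.v) =
      ∑ β ∈ E, (ln x.st β : ℝ) := by exact_mod_cast hclssum
  have hla : (0 : ℝ) ≤ ln x.st a := by positivity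
  have key : x.Dt a - (x.θ - 2 * x.h * x.q * ((x.v : ℝ) / x.D)) =
      (∑ β ∈ E, (ln x.st β : ℝ) - x.D) / x.D + x.μ := by
    rw [hDt, hmmr, hθ, ← hc']
    field_simp
    ring
  rw [key, abs_le]
  have b1 : (∑ β ∈ E, (ln x.st β : ℝ) - x.D) / x.D ≤ x.μ := by
    rw [div_le_iff₀ hD0]
    linarith
  have b2 : - (8 * x.μ) ≤ (∑ β ∈ E, (ln x.st β : ℝ) - x.D) / x.D := by
    rw [le_div_iff₀ hD0]
    linarith
  constructor <;> linarith

end Pool.Agent.H71.HW
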